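import Pool.Agent.Helper23.LW.Asm
import Pool.Agent.Helper23.LW.SPC
import Pool.Agent.Helper29.LW.GRD
import Pool.Agent.Helper47.LW.ZER
import Pool.Agent.Helper47.LW.NCT
import Pool.Agent.Helper6.LW.CRV
import Pool.Agent.Helper6.LW.MOR

/-!
# The special sets of images of pairs of nonpositive log canonical divisor in weighted projective
# spaces

`X` is any subset of projective `N`-space, for instance a smooth quasi-projective variety. `OnImage X x`
(`Pool/Agent/Helper23/LW/Defs.lean`): the point `x` is `Φ P`, where `Φ` is a morphism with finite fibres to
`X` from the variety `{H 1 = ⋯ = H s = 0} \ {G = 0}` in a weighted projective space with arbitrary weights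
`w i`, with `∑ deg (H j) + deg G ≤ ∑ w i` (for a complete intersection: the log canonical divisor is not
positive), and a coordinate of `P` whose weight is not divisible by `deg G ≥ 2` is not zero. No
smoothness is assumed.

Every such point is on the image of a non-constant morphism from `G_m` to `X`, of a non-constant entire
curve, and of a holomorphic map from the punctured disc to `X` with an essential singularity. If these
points are Zariski dense in `X` then the special sets defined by the three kinds of maps are equal to
`X`.
-/

set_option autoImplicit false

namespace Pool.Agent.Helper23.Variants.LogWeightedIntersections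

open Pool.Agent.H734R3.GGL Pool.Agent.Helper23.LW

theorem result (N : ℕ) (X : Set (PN N)) :
    (∀ x, OnImage X x → x ∈ gmPoints X ∧ x ∈ holPoints X ∧ x ∈ essPoints X) ∧
    (zcl X {x | OnImage X x} = X → SpGm X = X ∧ SpH X = X ∧ SpP X = X) :=
  asm (Pool.Agent.Helper6.LW.MOR.main
    (Pool.Agent.Helper6.LW.CRV.main Pool.Agent.Helper47.LW.ZER.main Pool.Agent.Helper29.LW.GRD.main)
    Pool.Agent.Helper47.LW.NCT.main) SPC.main N X

end Pool.Agent.Helper23.Variants.LogWeightedIntersections
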